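import Pool.Agent.N869.GK.StmX
import Pool.Agent.H437R2.Man.MWPar

/-!
# Project GK, variant X: two points with the same classes differ by twice a point
-/

set_option autoImplicit false

open WeierstrassCurve

namespace Pool.Agent.N488.GK

open Pool.Agent.H437R2.Man.MW (crv crv_eqn crv_nonsing add_double neg_mk)

theorem gen {K : Type} [Field K] [CharZero K] [DecidableEq K] (e1 e2 e3 : K) (h12 : e1 ≠ e2)
    (h13 : e1 ≠ e3) (h23 : e2 ≠ e3) (W : WeierstrassCurve K) (hW : W = crv (-e1) (-e2) (-e3))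
    (x y x' y' : K) (h : W.toAffine.Nonsingular x y) (h' : W.toAffine.Nonsingular x' y')
    (hy : y ≠ 0) (hy' : y' ≠ 0) (s1 : IsSquare ((x - e1) * (x' - e1)))
    (s2 : IsSquare ((x - e2) * (x' - e2))) :
    ∃ Q : W.toAffine.Point, Affine.Point.some x y h - Affine.Point.some x' y' h' = Q + Q := by
  subst hW
  have q12 : -e1 ≠ -e2 := fun h => h12 (neg_injective h)
  have q13 : -e1 ≠ -e3 := fun h => h13 (neg_injective h)
  have q23 : -e2 ≠ -e3 := fun h => h23 (neg_injective h)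
  have e := crv_eqn.mp h.1
  have e' := crv_eqn.mp h'.1
  have hp : (x + -e1) * (x + -e2) * (x + -e3) ≠ 0 := by rw [← e]; exact pow_ne_zero _ hy
  have hp' : (x' + -e1) * (x' + -e2) * (x' + -e3) ≠ 0 := by rw [← e']; exact pow_ne_zero _ hy'
  have n1 : x - e1 ≠ 0 := fun h => hp (by rw [← sub_eq_add_neg, h]; ring)
  have n2 : x - e2 ≠ 0 := fun h => hp (by rw [← sub_eq_add_neg x e2, h]; ring)
  have n3 : x - e3 ≠ 0 := fun h => hp (by rw [← sub_eq_add_neg x e3, h]; ring)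
  have n1' : x' - e1 ≠ 0 := fun h => hp' (by rw [← sub_eq_add_neg, h]; ring)
  have n2' : x' - e2 ≠ 0 := fun h => hp' (by rw [← sub_eq_add_neg x' e2, h]; ring)
  have n3' : x' - e3 ≠ 0 := fun h => hp' (by rw [← sub_eq_add_neg x' e3, h]; ring)
  obtain ⟨r1, hr1⟩ := s1
  obtain ⟨r2, hr2⟩ := s2
  have m1 : r1 ≠ 0 := fun h => mul_ne_zero n1 n1' (by rw [hr1, h]; ring)
  have m2 : r2 ≠ 0 := fun h => mul_ne_zero n2 n2' (by rw [hr2, h]; ring)
  have hneg : (crv (-e1) (-e2) (-e3)).toAffine.Nonsingular x' (-y') :=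
    crv_nonsing q12 q13 q23 (by rw [neg_sq]; exact e')
  have hr3 : (x - e3) * (x' - e3) = (y * y' / (r1 * r2)) ^ 2 := by
    rw [div_pow, eq_div_iff (pow_ne_zero _ (mul_ne_zero m1 m2))]
    have h1 : (r1 * r2) ^ 2 = ((x - e1) * (x' - e1)) * ((x - e2) * (x' - e2)) := by
      rw [hr1, hr2]; ring
    rw [h1, mul_pow, e, e']
    ring
  have m3 : y * y' / (r1 * r2) ≠ 0 := div_ne_zero (mul_ne_zero hy hy') (mul_ne_zero m1 m2)
  obtain ⟨Q, hQ⟩ := add_double (r1 := r1) (r2 := r2) (r3 := y * y' / (r1 * r2)) q12 q13 q23 h hneg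
    m1 m2 m3 (by linear_combination hr1) (by linear_combination hr2) (by linear_combination hr3)
  refine ⟨Q, ?_⟩
  rw [sub_eq_add_neg, neg_mk h' hneg]
  exact hQ.symm

theorem t_HALFK : Pool.Agent.N869.GK.X.S_HALFK := by
  intro K _ _ e1 e2 e3 h12 h13 h23 x y x' y' h h' hy hy' s1 s2
  classical
  exact gen e1 e2 e3 h12 h13 h23 _ (by
    apply WeierstrassCurve.ext
    · rfl
    · show -(e1 + e2 + e3) = -e1 + -e2 + -e3
      ring
    · rfl
    · show e1 * e2 + e1 * e3 + e2 * e3 = -e1 * -e2 + -e1 * -e3 + -e2 * -e3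
      ring
    · show -(e1 * e2 * e3) = -e1 * -e2 * -e3
      ring) x y x' y' h h' hy hy' s1 s2

end Pool.Agent.N488.GK
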